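import Pool.Agent.W783.KerOp1

/-!
The point-pair kernel `Φ (|z-w|²/(2 Im z Im w))`: smoothness, support and hyperbolic Laplacian.
-/

set_option autoImplicit false

open UpperHalfPlane MeasureTheory Filter Topology
open scoped MatrixGroups BoundedContinuousFunction ContDiff

namespace Pool.Agent.W783.KerOp

/-- the kernel as a function on `ℂ × ℂ` -/
noncomputable def ker (Φ : ℝ → ℝ) (p : ℂ × ℂ) : ℝ :=
  Φ (((p.1.re - p.2.re) ^ 2 + (p.1.im - p.2.im) ^ 2) / (2 * p.1.im * p.2.im))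

lemma uu_eq (z w : ℍ) : W384.uu z w =
    (((z : ℂ).re - (w : ℂ).re) ^ 2 + ((z : ℂ).im - (w : ℂ).im) ^ 2)
      / (2 * (z : ℂ).im * (w : ℂ).im) := by
  unfold W384.uu
  rw [Complex.dist_eq, Complex.sq_norm, Complex.normSq_apply, Complex.sub_re, Complex.sub_im,
    coe_im, coe_im]
  congr 1
  ring

lemma ker_coe (Φ : ℝ → ℝ) (z w : ℍ) : ker Φ ((z : ℂ), (w : ℂ)) = Φ (W384.uu z w) := by
  rw [uu_eq]; rfl

lemma good_ker {Φ : ℝ → ℝ} (hΦ : ContDiff ℝ ∞ Φ) (hc : HasCompactSupport Φ) : Good (ker Φ) := by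
  refine ⟨?_, ?_⟩
  · unfold ker
    apply hΦ.comp_contDiffOn
    have r1 : ContDiff ℝ ∞ (fun p : ℂ × ℂ => p.1.re) := Complex.reCLM.contDiff.comp contDiff_fst
    have r2 : ContDiff ℝ ∞ (fun p : ℂ × ℂ => p.2.re) := Complex.reCLM.contDiff.comp contDiff_snd
    have i1 : ContDiff ℝ ∞ (fun p : ℂ × ℂ => p.1.im) := Complex.imCLM.contDiff.comp contDiff_fst
    have i2 : ContDiff ℝ ∞ (fun p : ℂ × ℂ => p.2.im) := Complex.imCLM.contDiff.comp contDiff_snd
    apply ContDiffOn.div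
    · exact (((r1.sub r2).pow 2).add ((i1.sub i2).pow 2)).contDiffOn
    · exact ((contDiff_const.mul i1).mul i2).contDiffOn
    · rintro ⟨z, w⟩ ⟨hz, hw⟩
      have hz' : 0 < z.im := hz
      have hw' : 0 < w.im := hw
      positivity
  · intro z₀ hz₀
    obtain ⟨R, hR⟩ := hc.isBounded.subset_closedBall (0 : ℝ)
    set τ₀ : ℍ := ofComplex z₀ with hτ₀
    refine ⟨{z | z ∈ UH ∧ dist (ofComplex z) τ₀ < 1}, ?_, Metric.closedBall τ₀ (2 * |R| + 2),
      isCompact_closedBall _ _, ?_⟩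
    · refine inter_mem (isOpen_UH.mem_nhds hz₀) ?_
      have h1 : ContinuousAt ofComplex z₀ := (contMDiffAt_ofComplex (n := 0) hz₀).continuousAt
      exact h1.preimage_mem_nhds (Metric.ball_mem_nhds τ₀ one_pos)
    · rintro z ⟨hzU, hz⟩ w hw
      have hzc : z = ((ofComplex z : ℍ) : ℂ) := by
        rw [ofComplex_apply_of_im_pos hzU]
      rw [hzc, ker_coe]
      by_contra hne
      apply hw
      have h1 : W384.uu (ofComplex z) w ∈ tsupport Φ := subset_tsupport _ hne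
      have h2 := hR h1
      rw [Metric.mem_closedBall, dist_zero_right, Real.norm_eq_abs] at h2
      have h3 : Real.cosh (dist (ofComplex z) w) = 1 + W384.uu (ofComplex z) w := by
        rw [cosh_dist]; rfl
      have h4 : Real.cosh (dist (ofComplex z) w) ≤ 1 + |R| := by
        rw [h3]
        have := le_abs_self (W384.uu (ofComplex z) w)
        have := le_abs_self R
        linarith
      have h5 : (1 + dist (ofComplex z) w) / 2 ≤ Real.cosh (dist (ofComplex z) w) := by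
        rw [Real.cosh_eq]
        have e1 := Real.add_one_le_exp (dist (ofComplex z) w)
        have e2 := Real.exp_pos (-dist (ofComplex z) w)
        linarith
      rw [Metric.mem_closedBall]
      have h6 := dist_triangle w (ofComplex z) τ₀
      have h7 := dist_comm w (ofComplex z)
      linarith

/-- second derivatives along a line -/
lemma second_deriv {F : ℂ × ℂ → ℝ} (hF : Good F) {z w : ℂ} (hz : z ∈ UH) (hw : w ∈ UH) (v : ℂ)
    (g1 : ℝ → ℝ) (g2 : ℝ)
    (h1 : ∀ᶠ t : ℝ in 𝓝 0, HasDerivAt (fun t : ℝ => F (z + t * v, w)) (g1 t) t)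
    (h2 : HasDerivAt g1 g2 0) : D1 (D1 F) (z, w) v v = g2 := by
  have hl : ∀ t : ℝ, HasDerivAt (fun t : ℝ => z + t * v) v t := by
    intro t
    simpa using (Complex.ofRealCLM.hasDerivAt (x := t)).mul_const v |>.const_add z
  have hU : ∀ᶠ t : ℝ in 𝓝 0, z + t * v ∈ UH := by
    have hc : ContinuousAt (fun t : ℝ => z + t * v) 0 := (hl 0).continuousAt
    apply hc.eventually_mem
    apply isOpen_UH.mem_nhds
    simpa using hz
  have e1 : g1 =ᶠ[𝓝 0] fun t => D1 F (z + t * v, w) v := by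
    filter_upwards [h1, hU] with t ht htU
    have h3 := (hasFDerivAt_fst hF.smooth htU hw).comp_hasDerivAt t (hl t)
    exact ht.unique h3
  have h4 : HasFDerivAt (fun z => D1 F (z, w)) (D1 (D1 F) (z + (0 : ℝ) * v, w))
      (z + (0 : ℝ) * v) := by
    apply hasFDerivAt_fst hF.deriv.smooth _ hw
    simpa using hz
  have h5 := h4.comp_hasDerivAt (0 : ℝ) (hl 0)
  have h6 : HasDerivAt (fun t : ℝ => D1 F (z + t * v, w) v)
      (D1 (D1 F) (z + (0 : ℝ) * v, w) v v) 0 :=
    (ContinuousLinearMap.apply ℝ ℝ v).hasFDerivAt.comp_hasDerivAt (0 : ℝ) h5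
  have h7 := (h2.congr_of_eventuallyEq e1.symm).unique h6
  rw [h7]
  simp

lemma deriv_contDiff {Φ : ℝ → ℝ} (hΦ : ContDiff ℝ ∞ Φ) : ContDiff ℝ ∞ (deriv Φ) :=
  ((contDiff_infty_iff_deriv).1 hΦ).2

/-- the hyperbolic Laplacian of the kernel -/
lemma ker_laplacian {Φ : ℝ → ℝ} (hΦ : ContDiff ℝ ∞ Φ) (hc : HasCompactSupport Φ) {z w : ℂ}
    (hz : z ∈ UH) (hw : w ∈ UH) :
    z.im ^ 2 * (D1 (D1 (ker Φ)) (z, w) 1 1 + D1 (D1 (ker Φ)) (z, w) Complex.I Complex.I)
      = ker (W384.lapΦ Φ) (z, w) := by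
  have hz' : 0 < z.im := hz
  have hw' : 0 < w.im := hw
  have hd1 : ∀ t, HasDerivAt Φ (deriv Φ t) t := fun t =>
    (hΦ.differentiable (by simp) t).hasDerivAt
  have hd2 : ∀ t, HasDerivAt (deriv Φ) (deriv (deriv Φ) t) t := fun t =>
    ((deriv_contDiff hΦ).differentiable (by simp) t).hasDerivAt
  obtain ⟨x, hx⟩ : ∃ x, x = z.re := ⟨_, rfl⟩
  obtain ⟨y, hy⟩ : ∃ y, y = z.im := ⟨_, rfl⟩
  obtain ⟨a, ha⟩ : ∃ a, a = w.re := ⟨_, rfl⟩
  obtain ⟨b, hb⟩ : ∃ b, b = w.im := ⟨_, rfl⟩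
  have hy0 : 0 < y := by rw [hy]; exact hz'
  have hb0 : 0 < b := by rw [hb]; exact hw'
  set T : ℝ := ((x - a) ^ 2 + (y - b) ^ 2) / (2 * y * b) with hT
  -- direction 1
  have hU1 : ∀ t : ℝ, HasDerivAt (fun t : ℝ => ((x + t - a) ^ 2 + (y - b) ^ 2) / (2 * y * b))
      ((x + t - a) / (y * b)) t := by
    intro t
    have h1 : HasDerivAt (fun t : ℝ => x + t - a) 1 t := by
      simpa using ((hasDerivAt_id t).const_add x).sub_const a
    have h2 := ((h1.pow 2).add_const ((y - b) ^ 2)).div_const (2 * y * b)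
    refine h2.congr_deriv ?_
    field_simp
    ring
  have e1 : D1 (D1 (ker Φ)) (z, w) 1 1
      = deriv (deriv Φ) T * ((x - a) / (y * b)) ^ 2 + deriv Φ T * (1 / (y * b)) := by
    apply second_deriv (good_ker hΦ hc) hz hw 1
      (fun t => deriv Φ (((x + t - a) ^ 2 + (y - b) ^ 2) / (2 * y * b)) * ((x + t - a) / (y * b)))
    · refine Eventually.of_forall fun t => ?_
      have h1 := (hd1 (((x + t - a) ^ 2 + (y - b) ^ 2) / (2 * y * b))).comp t (hU1 t)
      refine h1.congr_of_eventuallyEq (Eventually.of_forall fun s => ?_)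
      simp [ker, hx, hy, ha, hb]
    · have h1 := (hd2 (((x + 0 - a) ^ 2 + (y - b) ^ 2) / (2 * y * b))).comp (0 : ℝ) (hU1 0)
      have h2 : HasDerivAt (fun t : ℝ => (x + t - a) / (y * b)) (1 / (y * b)) 0 := by
        have h3 : HasDerivAt (fun t : ℝ => x + t - a) 1 0 := by
          simpa using ((hasDerivAt_id (0 : ℝ)).const_add x).sub_const a
        exact h3.div_const _
      have h3 := h1.mul h2
      refine h3.congr_deriv ?_
      simp only [Function.comp, add_zero]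
      rw [← hT]
      ring
  -- direction I
  have hU2 : ∀ t : ℝ, 0 < y + t →
      HasDerivAt (fun t : ℝ => ((x - a) ^ 2 + (y + t - b) ^ 2) / (2 * (y + t) * b))
      (((y + t) ^ 2 - b ^ 2 - (x - a) ^ 2) / (2 * (y + t) ^ 2 * b)) t := by
    intro t ht
    have h1 : HasDerivAt (fun t : ℝ => y + t) 1 t := by
      simpa using ((hasDerivAt_id t).const_add y)
    have h2 : HasDerivAt (fun t : ℝ => (x - a) ^ 2 + (y + t - b) ^ 2) (2 * (y + t - b)) t := by
      have := ((h1.sub_const b).pow 2).const_add ((x - a) ^ 2)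
      refine this.congr_deriv ?_
      ring
    have h3 : HasDerivAt (fun t : ℝ => 2 * (y + t) * b) (2 * b) t := by
      have := (h1.const_mul 2).mul_const b
      refine this.congr_deriv ?_
      ring
    have h4 := h2.div h3 (by positivity)
    refine h4.congr_deriv ?_
    field_simp
    ring
  have e2 : D1 (D1 (ker Φ)) (z, w) Complex.I Complex.I
      = deriv (deriv Φ) T * ((y ^ 2 - b ^ 2 - (x - a) ^ 2) / (2 * y ^ 2 * b)) ^ 2
        + deriv Φ T * ((b ^ 2 + (x - a) ^ 2) / (y ^ 3 * b)) := by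
    apply second_deriv (good_ker hΦ hc) hz hw Complex.I
      (fun t => deriv Φ (((x - a) ^ 2 + (y + t - b) ^ 2) / (2 * (y + t) * b))
        * (((y + t) ^ 2 - b ^ 2 - (x - a) ^ 2) / (2 * (y + t) ^ 2 * b)))
    · have hpos : ∀ᶠ t : ℝ in 𝓝 0, 0 < y + t := by
        have : ContinuousAt (fun t : ℝ => y + t) 0 := by fun_prop
        exact this.eventually_mem (isOpen_Ioi.mem_nhds (by simpa using hy0))
      filter_upwards [hpos] with t ht
      have h1 := (hd1 (((x - a) ^ 2 + (y + t - b) ^ 2) / (2 * (y + t) * b))).comp t (hU2 t ht)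
      refine h1.congr_of_eventuallyEq (Eventually.of_forall fun s => ?_)
      simp [ker, hx, hy, ha, hb]
    · have h1 := (hd2 (((x - a) ^ 2 + (y + 0 - b) ^ 2) / (2 * (y + 0) * b))).comp (0 : ℝ)
        (hU2 0 (by simpa using hy0))
      have h2 : HasDerivAt (fun t : ℝ => ((y + t) ^ 2 - b ^ 2 - (x - a) ^ 2) / (2 * (y + t) ^ 2 * b))
          ((b ^ 2 + (x - a) ^ 2) / (y ^ 3 * b)) 0 := by
        have h3 : HasDerivAt (fun t : ℝ => y + t) 1 0 := by
          simpa using ((hasDerivAt_id (0 : ℝ)).const_add y)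
        have h4 : HasDerivAt (fun t : ℝ => (y + t) ^ 2 - b ^ 2 - (x - a) ^ 2) (2 * y) 0 := by
          have := ((h3.pow 2).sub_const (b ^ 2)).sub_const ((x - a) ^ 2)
          refine this.congr_deriv ?_
          simp
        have h5 : HasDerivAt (fun t : ℝ => 2 * (y + t) ^ 2 * b) (4 * y * b) 0 := by
          have := ((h3.pow 2).const_mul 2).mul_const b
          refine this.congr_deriv ?_
          push_cast
          ring
        have h6 := h4.div h5 (by rw [add_zero]; positivity)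
        refine h6.congr_deriv ?_
        simp only [add_zero]
        field_simp
        ring
      have h3 := h1.mul h2
      refine h3.congr_deriv ?_
      simp only [Function.comp, add_zero]
      rw [← hT]
      ring
  rw [e1, e2]
  have hk : ker (W384.lapΦ Φ) (z, w) = W384.lapΦ Φ T := by
    simp only [ker, hT, hx, hy, ha, hb]
  rw [hk, W384.lapΦ, ← hy]
  have hT1 : T + 1 = ((x - a) ^ 2 + y ^ 2 + b ^ 2) / (2 * y * b) := by
    rw [hT]; field_simp; ring
  have c1 : y ^ 2 * (((x - a) / (y * b)) ^ 2 + ((y ^ 2 - b ^ 2 - (x - a) ^ 2) / (2 * y ^ 2 * b)) ^ 2)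
      = (T + 1) ^ 2 - 1 := by
    rw [hT1]; field_simp; ring
  have c2 : y ^ 2 * (1 / (y * b) + (b ^ 2 + (x - a) ^ 2) / (y ^ 3 * b)) = 2 * (T + 1) := by
    rw [hT1]; field_simp; ring
  linear_combination (deriv (deriv Φ) T) * c1 + (deriv Φ T) * c2


/-- the kernel operator as a complex combination of two real integrals -/
lemma kerOp_eq {Φ : ℝ → ℝ} (hΦ : ContDiff ℝ ∞ Φ) (hc : HasCompactSupport Φ) {f : ℍ → ℂ}
    (hf : Continuous f) {z : ℂ} (hz : z ∈ UH) :
    W384.kerOp Φ f (ofComplex z) =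
      Complex.ofRealCLM (∫ w : ℍ, (f w).re • ker Φ (z, (w : ℂ)))
        + Complex.I * Complex.ofRealCLM (∫ w : ℍ, (f w).im • ker Φ (z, (w : ℂ))) := by
  have hzc : z = ((ofComplex z : ℍ) : ℂ) := by
    rw [ofComplex_apply_of_im_pos hz]
  have h1 := integrable_slice (fun w => (f w).re) (Complex.continuous_re.comp hf)
    (good_ker hΦ hc) hz
  have h2 := integrable_slice (fun w => (f w).im) (Complex.continuous_im.comp hf)
    (good_ker hΦ hc) hz
  simp only [Complex.ofRealCLM_apply]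
  rw [← integral_complex_ofReal, ← integral_complex_ofReal, ← integral_const_mul,
    ← integral_add (f := fun w : ℍ => (((f w).re • ker Φ (z, (w : ℂ)) : ℝ) : ℂ))
      (by exact h1.ofReal) (by exact (h2.ofReal (𝕜 := ℂ)).const_mul _)]
  unfold W384.kerOp
  apply integral_congr_ae
  refine Eventually.of_forall fun w => ?_
  have h3 : ker Φ (z, (w : ℂ)) = Φ (W384.uu (ofComplex z) w) := by
    conv_lhs => rw [hzc]
    exact ker_coe Φ _ w
  simp only [h3, smul_eq_mul]
  apply Complex.ext <;> simp <;> ring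

/-- smoothness and hyperbolic Laplacian of the point-pair integral operator -/
theorem kerOp_contDiff (Φ : ℝ → ℝ) (hΦ : ContDiff ℝ ∞ Φ) (hc : HasCompactSupport Φ) (f : ℍ → ℂ)
    (hf : Continuous f) (M : ℝ) (hb : ∀ z, ‖f z‖ ≤ M) :
    ContDiffOn ℝ ∞ (fun z : ℂ => W384.kerOp Φ f (ofComplex z)) {z | 0 < z.im} ∧
    ∀ z : ℍ, (z.im : ℂ) ^ 2 *
      (Laplacian.laplacian (fun z : ℂ => W384.kerOp Φ f (ofComplex z)) : ℂ → ℂ) (z : ℂ) =
        W384.kerOp (W384.lapΦ Φ) f z := by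
  have hre : Continuous fun w => (f w).re := Complex.continuous_re.comp hf
  have him : Continuous fun w => (f w).im := Complex.continuous_im.comp hf
  have c1 := contDiffOn_int (fun w => (f w).re) hre (good_ker hΦ hc)
  have c2 := contDiffOn_int (fun w => (f w).im) him (good_ker hΦ hc)
  have c1' : ContDiffOn ℝ ∞ (fun z : ℂ =>
      Complex.ofRealCLM (∫ w : ℍ, (f w).re • ker Φ (z, (w : ℂ)))) UH :=
    Complex.ofRealCLM.contDiff.comp_contDiffOn c1
  have c2' : ContDiffOn ℝ ∞ (fun z : ℂ =>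
      Complex.ofRealCLM (∫ w : ℍ, (f w).im • ker Φ (z, (w : ℂ)))) UH :=
    Complex.ofRealCLM.contDiff.comp_contDiffOn c2
  have c3 := c1'.add (contDiffOn_const (c := Complex.I) |>.mul c2')
  refine ⟨c3.congr fun z hz => kerOp_eq hΦ hc hf hz, fun z => ?_⟩
  have hz : (z : ℂ) ∈ UH := coe_mem z
  have hzn : UH ∈ 𝓝 (z : ℂ) := isOpen_UH.mem_nhds hz
  have hl : ContDiff ℝ ∞ (W384.lapΦ Φ) := by
    unfold W384.lapΦ
    have h1 := deriv_contDiff hΦ
    have h2 := deriv_contDiff h1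
    fun_prop
  have hlc : HasCompactSupport (W384.lapΦ Φ) := by
    have h1 : HasCompactSupport (deriv Φ) := hc.deriv
    have h2 : HasCompactSupport (deriv (deriv Φ)) := h1.deriv
    unfold W384.lapΦ
    exact (h2.mul_left).add (h1.mul_left)
  have e0 : (fun z : ℂ => W384.kerOp Φ f (ofComplex z)) =ᶠ[𝓝 (z : ℂ)] fun z : ℂ =>
      Complex.ofRealCLM (∫ w : ℍ, (f w).re • ker Φ (z, (w : ℂ)))
        + Complex.I * Complex.ofRealCLM (∫ w : ℍ, (f w).im • ker Φ (z, (w : ℂ))) := by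
    filter_upwards [hzn] with z hz
    exact kerOp_eq hΦ hc hf hz
  rw [(InnerProductSpace.laplacian_congr_nhds e0).eq_of_nhds]
  set A : ℂ → ℝ := fun z => ∫ w : ℍ, (f w).re • ker Φ (z, (w : ℂ)) with hA
  set B : ℂ → ℝ := fun z => ∫ w : ℍ, (f w).im • ker Φ (z, (w : ℂ)) with hB
  have hA2 : ContDiffAt ℝ 2 A (z : ℂ) := (c1.contDiffAt hzn).of_le (by norm_cast)
  have hB2 : ContDiffAt ℝ 2 B (z : ℂ) := (c2.contDiffAt hzn).of_le (by norm_cast)
  have hA3 : ContDiffAt ℝ 2 (Complex.ofRealCLM ∘ A) (z : ℂ) :=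
    Complex.ofRealCLM.contDiff.contDiffAt.comp _ hA2
  have hB3 : ContDiffAt ℝ 2 (Complex.ofRealCLM ∘ B) (z : ℂ) :=
    Complex.ofRealCLM.contDiff.contDiffAt.comp _ hB2
  have e1 : (fun z : ℂ => Complex.ofRealCLM (A z) + Complex.I * Complex.ofRealCLM (B z))
      = (Complex.ofRealCLM ∘ A) + Complex.I • (Complex.ofRealCLM ∘ B) := by
    ext z; simp
  change (z.im : ℂ) ^ 2 * (Laplacian.laplacian (fun z : ℂ => Complex.ofRealCLM (A z)
    + Complex.I * Complex.ofRealCLM (B z)) : ℂ → ℂ) (z : ℂ) = _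
  have hB4 : ContDiffAt ℝ 2 (Complex.I • (Complex.ofRealCLM ∘ B)) (z : ℂ) :=
    hB3.const_smul Complex.I
  rw [e1, hA3.laplacian_add hB4, InnerProductSpace.laplacian_smul _ hB3,
    hA2.laplacian_CLM_comp_left, hB2.laplacian_CLM_comp_left]
  have hk : ∀ w : ℍ, (z : ℂ).im ^ 2 * (D1 (D1 (ker Φ)) ((z : ℂ), (w : ℂ)) 1 1
      + D1 (D1 (ker Φ)) ((z : ℂ), (w : ℂ)) Complex.I Complex.I)
      = ker (W384.lapΦ Φ) ((z : ℂ), (w : ℂ)) := fun w => ker_laplacian hΦ hc hz (coe_mem w)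
  have lA : z.im ^ 2 * Laplacian.laplacian A (z : ℂ)
      = ∫ w : ℍ, (f w).re • ker (W384.lapΦ Φ) ((z : ℂ), (w : ℂ)) := by
    rw [hA, laplacian_int _ hre (good_ker hΦ hc) hz, ← integral_const_mul]
    apply integral_congr_ae
    refine Eventually.of_forall fun w => ?_
    simp only [smul_eq_mul]
    rw [← hk w, coe_im]
    ring
  have lB : z.im ^ 2 * Laplacian.laplacian B (z : ℂ)
      = ∫ w : ℍ, (f w).im • ker (W384.lapΦ Φ) ((z : ℂ), (w : ℂ)) := by
    rw [hB, laplacian_int _ him (good_ker hΦ hc) hz, ← integral_const_mul]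
    apply integral_congr_ae
    refine Eventually.of_forall fun w => ?_
    simp only [smul_eq_mul]
    rw [← hk w, coe_im]
    ring
  have hfin := kerOp_eq hl hlc hf hz
  rw [ofComplex_apply] at hfin
  rw [hfin, ← lA, ← lB]
  simp only [Function.comp, Complex.ofRealCLM_apply, smul_eq_mul]
  push_cast
  ring

end Pool.Agent.W783.KerOp
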