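import Pool.Agent.W384.Defs

/-!
Differentiation under the integral sign for smooth kernels on the upper half-plane with locally
uniform compact support.
-/

set_option autoImplicit false

open UpperHalfPlane MeasureTheory Filter Topology
open scoped MatrixGroups BoundedContinuousFunction ContDiff

namespace Pool.Agent.W783.KerOp

/-- the open upper half-plane as a subset of `ℂ` -/
def UH : Set ℂ := {z | 0 < z.im}

lemma isOpen_UH : IsOpen UH := isOpen_lt continuous_const Complex.continuous_im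

lemma coe_mem (w : ℍ) : (w : ℂ) ∈ UH := w.im_pos

variable {E : Type} [NormedAddCommGroup E] [NormedSpace ℝ E]

/-- smooth kernels with locally uniform compact support in the second variable -/
structure Good (F : ℂ × ℂ → E) : Prop where
  smooth : ContDiffOn ℝ ∞ F (UH ×ˢ UH)
  supp : ∀ z₀ ∈ UH, ∃ N ∈ 𝓝 z₀, ∃ S : Set ℍ, IsCompact S ∧
    ∀ z ∈ N, ∀ w : ℍ, w ∉ S → F (z, (w : ℂ)) = 0

/-- the partial derivative in the first variable -/
noncomputable def D1 (F : ℂ × ℂ → E) (p : ℂ × ℂ) : ℂ →L[ℝ] E :=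
  (fderiv ℝ F p).comp (ContinuousLinearMap.inl ℝ ℂ ℂ)

lemma isOpen_prod : IsOpen (UH ×ˢ UH) := isOpen_UH.prod isOpen_UH

lemma hasFDerivAt_fst {F : ℂ × ℂ → E} (hF : ContDiffOn ℝ ∞ F (UH ×ˢ UH)) {z w : ℂ}
    (hz : z ∈ UH) (hw : w ∈ UH) : HasFDerivAt (fun z => F (z, w)) (D1 F (z, w)) z := by
  have h1 : DifferentiableAt ℝ F (z, w) :=
    ((hF.differentiableOn (by simp)) (z, w) ⟨hz, hw⟩).differentiableAt
      (isOpen_prod.mem_nhds ⟨hz, hw⟩)
  exact h1.hasFDerivAt.comp z (hasFDerivAt_prodMk_left z w)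

lemma Good.deriv {F : ℂ × ℂ → E} (hF : Good F) : Good (D1 F) := by
  refine ⟨?_, ?_⟩
  · have h1 : ContDiffOn ℝ ∞ (fderiv ℝ F) (UH ×ˢ UH) :=
      hF.smooth.fderiv_of_isOpen isOpen_prod (by simp)
    exact h1.clm_comp contDiffOn_const
  · intro z₀ hz₀
    obtain ⟨N, hN, S, hS, h⟩ := hF.supp z₀ hz₀
    refine ⟨interior N ∩ UH, inter_mem (interior_mem_nhds.2 hN) (isOpen_UH.mem_nhds hz₀), S, hS, ?_⟩
    rintro z ⟨hz, hzU⟩ w hw
    have h1 := hasFDerivAt_fst hF.smooth hzU (coe_mem w)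
    have h2 : (fun z => F (z, (w : ℂ))) =ᶠ[𝓝 z] fun _ => 0 := by
      filter_upwards [mem_interior_iff_mem_nhds.1 hz] with z' hz'
      exact h z' hz' w hw
    have h3 := h1.congr_of_eventuallyEq h2.symm
    exact h3.unique (hasFDerivAt_const (0 : E) z)

variable (a : ℍ → ℝ) (ha : Continuous a)

lemma continuous_slice {F : ℂ × ℂ → E} (hF : ContDiffOn ℝ ∞ F (UH ×ˢ UH)) {z : ℂ}
    (hz : z ∈ UH) : Continuous (fun w : ℍ => F (z, (w : ℂ))) := by
  have h1 : ContinuousOn F (UH ×ˢ UH) := hF.continuousOn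
  exact h1.comp_continuous (by fun_prop) (fun w => ⟨hz, coe_mem w⟩)

include ha in
lemma integrable_slice {F : ℂ × ℂ → E} (hF : Good F) {z : ℂ} (hz : z ∈ UH) :
    Integrable (fun w : ℍ => a w • F (z, (w : ℂ))) := by
  obtain ⟨N, hN, S, hS, h⟩ := hF.supp z hz
  apply Continuous.integrable_of_hasCompactSupport
  · exact ha.smul (continuous_slice hF.smooth hz)
  · apply HasCompactSupport.intro hS
    intro w hw
    rw [h z (mem_of_mem_nhds hN) w hw, smul_zero]

include ha in
theorem hasFDerivAt_int {F : ℂ × ℂ → E} (hF : Good F) {z₀ : ℂ} (hz₀ : z₀ ∈ UH) :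
    HasFDerivAt (fun z => ∫ w : ℍ, a w • F (z, (w : ℂ)))
      (∫ w : ℍ, a w • D1 F (z₀, (w : ℂ))) z₀ := by
  obtain ⟨N, hN, S, hS, h⟩ := hF.deriv.supp z₀ hz₀
  obtain ⟨ε, hε, hball⟩ := Metric.nhds_basis_closedBall.mem_iff.1
    (inter_mem hN (isOpen_UH.mem_nhds hz₀))
  -- bound of the derivative on the compact set
  have hK : IsCompact (Metric.closedBall z₀ ε ×ˢ ((↑) '' S : Set ℂ)) :=
    (isCompact_closedBall _ _).prod (hS.image continuous_coe)
  have hKsub : (Metric.closedBall z₀ ε ×ˢ ((↑) '' S : Set ℂ)) ⊆ UH ×ˢ UH := by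
    rintro ⟨z, w⟩ ⟨h1, w', -, h2⟩
    exact ⟨(hball h1).2, by rw [← h2]; exact coe_mem w'⟩
  obtain ⟨C, hC⟩ := hK.exists_bound_of_continuousOn (hF.deriv.smooth.continuousOn.mono hKsub)
  obtain ⟨A, hA⟩ := hS.exists_bound_of_continuousOn ha.continuousOn
  have hSm : MeasurableSet S := hS.isClosed.measurableSet
  refine hasFDerivAt_integral_of_dominated_of_fderiv_le (s := Metric.closedBall z₀ ε)
    (F' := fun z w => a w • D1 F (z, (w : ℂ)))
    (bound := S.indicator fun _ => |A| * |C|) (Metric.closedBall_mem_nhds z₀ hε) ?_ ?_ ?_ ?_ ?_ ?_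
  · filter_upwards [isOpen_UH.mem_nhds hz₀] with z hz
    exact (integrable_slice a ha hF hz).aestronglyMeasurable
  · exact integrable_slice a ha hF hz₀
  · exact (integrable_slice a ha hF.deriv hz₀).aestronglyMeasurable
  · refine Eventually.of_forall fun w z hz => ?_
    by_cases hw : w ∈ S
    · rw [Set.indicator_of_mem hw, norm_smul]
      have h1 := hC (z, (w : ℂ)) ⟨hz, w, hw, rfl⟩
      have h2 := hA w hw
      exact mul_le_mul (h2.trans (le_abs_self _)) (h1.trans (le_abs_self _)) (norm_nonneg _)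
        (abs_nonneg _)
    · rw [Set.indicator_of_notMem hw, h z (hball hz).1 w hw, smul_zero, norm_zero]
  · rw [integrable_indicator_iff hSm]
    exact integrableOn_const (hs := hS.measure_lt_top.ne)
  · refine Eventually.of_forall fun w z hz => ?_
    exact (hasFDerivAt_fst hF.smooth (hball hz).2 (coe_mem w)).const_smul (a w)

include ha in
theorem contDiffOn_int_nat (n : ℕ) : ∀ (E : Type) [NormedAddCommGroup E] [NormedSpace ℝ E]
    (F : ℂ × ℂ → E), Good F →
    ContDiffOn ℝ n (fun z => ∫ w : ℍ, a w • F (z, (w : ℂ))) UH := by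
  induction n with
  | zero =>
    intro E _ _ F hF
    rw [Nat.cast_zero, contDiffOn_zero]
    intro z hz
    exact (hasFDerivAt_int a ha hF hz).continuousAt.continuousWithinAt
  | succ n ih =>
    intro E _ _ F hF
    rw [Nat.cast_add, Nat.cast_one, contDiffOn_succ_iff_fderiv_of_isOpen isOpen_UH]
    refine ⟨fun z hz => (hasFDerivAt_int a ha hF hz).differentiableAt.differentiableWithinAt,
      by simp, ?_⟩
    refine (ih _ (D1 F) hF.deriv).congr ?_
    intro z hz
    exact (hasFDerivAt_int a ha hF hz).fderiv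

include ha in
theorem contDiffOn_int {F : ℂ × ℂ → E} (hF : Good F) :
    ContDiffOn ℝ ∞ (fun z => ∫ w : ℍ, a w • F (z, (w : ℂ))) UH := by
  rw [contDiffOn_infty]
  exact fun n => contDiffOn_int_nat a ha n E F hF

include ha in
/-- the Laplacian of the integral -/
theorem laplacian_int {F : ℂ × ℂ → ℝ} (hF : Good F) {z₀ : ℂ} (hz₀ : z₀ ∈ UH) :
    Laplacian.laplacian (fun z => ∫ w : ℍ, a w • F (z, (w : ℂ))) z₀
      = ∫ w : ℍ, a w • (D1 (D1 F) (z₀, (w : ℂ)) 1 1
        + D1 (D1 F) (z₀, (w : ℂ)) Complex.I Complex.I) := by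
  rw [InnerProductSpace.laplacian_eq_iteratedFDeriv_complexPlane]
  have h2 : fderiv ℝ (fderiv ℝ fun z => ∫ w : ℍ, a w • F (z, (w : ℂ))) z₀
      = ∫ w : ℍ, a w • D1 (D1 F) (z₀, (w : ℂ)) := by
    have h1 : (fderiv ℝ fun z => ∫ w : ℍ, a w • F (z, (w : ℂ))) =ᶠ[𝓝 z₀]
        fun z => ∫ w : ℍ, a w • D1 F (z, (w : ℂ)) := by
      filter_upwards [isOpen_UH.mem_nhds hz₀] with z hz
      exact (hasFDerivAt_int a ha hF hz).fderiv
    rw [h1.fderiv_eq]
    exact (hasFDerivAt_int a ha hF.deriv hz₀).fderiv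
  simp only [iteratedFDeriv_two_apply, h2]
  have hint := integrable_slice a ha hF.deriv.deriv hz₀
  have e : ∀ v u : ℂ, (∫ w : ℍ, a w • D1 (D1 F) (z₀, (w : ℂ))) v u
      = ∫ w : ℍ, a w • D1 (D1 F) (z₀, (w : ℂ)) v u := by
    intro v u
    rw [ContinuousLinearMap.integral_apply hint, ContinuousLinearMap.integral_apply]
    · rfl
    · exact hint.apply_continuousLinearMap v
  simp only [Matrix.cons_val_zero, Matrix.cons_val_one, e]
  rw [← integral_add]
  · simp only [smul_add]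
  · exact (hint.apply_continuousLinearMap 1).apply_continuousLinearMap 1
  · exact (hint.apply_continuousLinearMap Complex.I).apply_continuousLinearMap Complex.I

end Pool.Agent.W783.KerOp
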